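import Mathlib

set_option autoImplicit false

/-!
Graphs of path-width 2 have unbounded Thue choice number.

The graph: a sequence of vertices `u_0, ..., u_{m-1}`, and for every `j` a large set `X_j` of
vertices, each adjacent to `u_j` and to `u_{j+1}` only.  The lists of the `u_j` are pairwise
disjoint; the vertices of `X_j` carry all sets of at least `c` colours as lists.  Whatever the
colouring, all but fewer than `c` of the colours of the `u_k` occur on `X_j`, and counting over all
odd half-lengths `2 s + 1` gives a repetition because the harmonic series diverges.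
-/

namespace Pool.Agent.Results.MP_924390_co.FatPath

/-- `f` is a nonrepetitive colouring of `G`: no path `p 0, p 1, ..., p (2t-1)` of `G` (distinct
vertices, consecutive ones adjacent) with `t ≥ 1` satisfies `f (p i) = f (p (i+t))` for all
`i < t`. -/
def Nonrepetitive {V : Type} (G : SimpleGraph V) (f : V → ℕ) : Prop :=
  ∀ (t : ℕ) (p : ℕ → V), 1 ≤ t →
    (∀ i j, i < 2 * t → j < 2 * t → p i = p j → i = j) →
    (∀ i, i + 1 < 2 * t → G.Adj (p i) (p (i + 1))) →
    ∃ i, i < t ∧ f (p i) ≠ f (p (i + t))

/-- `G` is nonrepetitively `c`-choosable. -/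
def Choosable {V : Type} (G : SimpleGraph V) (c : ℕ) : Prop :=
  ∀ L : V → Finset ℕ, (∀ v, c ≤ (L v).card) →
    ∃ f : V → ℕ, (∀ v, f v ∈ L v) ∧ Nonrepetitive G f

/-- `G` has a path-decomposition `B 0, ..., B (m-1)` of width at most `w`. -/
def PathWidthLE {V : Type} (G : SimpleGraph V) (w : ℕ) : Prop :=
  ∃ (m : ℕ) (B : Fin m → Finset V),
    (∀ v, ∃ i, v ∈ B i) ∧
    (∀ u v, G.Adj u v → ∃ i, u ∈ B i ∧ v ∈ B i) ∧
    (∀ v i j k, i ≤ j → j ≤ k → v ∈ B i → v ∈ B k → v ∈ B j) ∧
    (∀ i, (B i).card ≤ w + 1)

/-- `G` has path-width exactly `2`. -/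
def PathWidthTwo {V : Type} (G : SimpleGraph V) : Prop :=
  PathWidthLE G 2 ∧ ¬ PathWidthLE G 1

/-! ### The graph -/

/-- the vertex set: the `u_j`, and the pairs `(j, S)` -/
abbrev Vx (m M : ℕ) : Type := Fin m ⊕ (Fin m × Finset (Fin M))

/-- adjacency -/
def rel (m M : ℕ) : Vx m M → Vx m M → Prop
  | Sum.inl i, Sum.inr x => i.val = x.1.val ∨ i.val = x.1.val + 1
  | Sum.inr x, Sum.inl i => i.val = x.1.val ∨ i.val = x.1.val + 1
  | Sum.inl _, Sum.inl _ => False
  | Sum.inr _, Sum.inr _ => False

/-- the fat path -/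
def fat (m M : ℕ) : SimpleGraph (Vx m M) where
  Adj := rel m M
  symm := ⟨by
    intro a b h
    rcases a with a | a <;> rcases b with b | b <;> simp_all [rel]⟩
  loopless := ⟨by
    intro a h
    rcases a with a | a <;> simp_all [rel]⟩

lemma fat_inl_inr {m M : ℕ} (i : Fin m) (x : Fin m × Finset (Fin M)) :
    (fat m M).Adj (Sum.inl i) (Sum.inr x) ↔ (i.val = x.1.val ∨ i.val = x.1.val + 1) := Iff.rfl

/-- a path-decomposition of width 2 -/
lemma fat_width (m M : ℕ) : PathWidthLE (fat m M) 2 := by
  classical
  let N := Fintype.card (Finset (Fin M))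
  let e : Fin N ≃ Finset (Fin M) := (Fintype.equivFin _).symm
  have hN : 0 < N := Fintype.card_pos
  let B : Fin (m * N) → Finset (Vx m M) := fun i =>
    (Finset.univ.filter (fun v : Vx m M => ∃ k : Fin m, v = Sum.inl k ∧ k.val = (i.divNat).val)) ∪
    ((Finset.univ.filter (fun v : Vx m M => ∃ k : Fin m, v = Sum.inl k ∧
      k.val = (i.divNat).val + 1)) ∪ {Sum.inr (i.divNat, e i.modNat)})
  have hl : ∀ (i : Fin (m * N)) (k : Fin m), Sum.inl k ∈ B i ↔
      (k.val = (i.divNat).val ∨ k.val = (i.divNat).val + 1) := by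
    intro i k
    simp only [B, Finset.mem_union, Finset.mem_filter, Finset.mem_univ, true_and,
      Finset.mem_singleton, Sum.inl.injEq, reduceCtorEq, or_false]
    constructor
    · rintro (⟨k', rfl, h⟩ | ⟨k', rfl, h⟩)
      · exact Or.inl h
      · exact Or.inr h
    · rintro (h | h)
      · exact Or.inl ⟨k, rfl, h⟩
      · exact Or.inr ⟨k, rfl, h⟩
  have hr : ∀ (i : Fin (m * N)) (x : Fin m × Finset (Fin M)), Sum.inr x ∈ B i ↔
      x = (i.divNat, e i.modNat) := by
    intro i x
    simp only [B, Finset.mem_union, Finset.mem_filter, Finset.mem_univ, true_and,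
      Finset.mem_singleton, Sum.inr.injEq, reduceCtorEq, false_and, exists_false, false_or]
  -- the bag that contains `inr x`
  have hex : ∀ x : Fin m × Finset (Fin M), ∃ i : Fin (m * N), i.divNat = x.1 ∧
      e i.modNat = x.2 := by
    intro x
    refine ⟨finProdFinEquiv (x.1, e.symm x.2), ?_, ?_⟩
    · have := finProdFinEquiv.symm_apply_apply (x.1, e.symm x.2)
      exact congrArg Prod.fst this
    · have := finProdFinEquiv.symm_apply_apply (x.1, e.symm x.2)
      have h2 := congrArg Prod.snd this
      have h3 : (finProdFinEquiv (x.1, e.symm x.2)).modNat = e.symm x.2 := h2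
      rw [h3, Equiv.apply_symm_apply]
  refine ⟨m * N, B, ?_, ?_, ?_, ?_⟩
  · intro v
    rcases v with k | x
    · obtain ⟨i, hi, -⟩ := hex (k, ∅)
      exact ⟨i, (hl i k).mpr (Or.inl (by rw [hi]))⟩
    · obtain ⟨i, hi, hi2⟩ := hex x
      exact ⟨i, (hr i x).mpr (by rw [hi, hi2])⟩
  · intro u v huv
    rcases u with k | x <;> rcases v with k' | x'
    · exact huv.elim
    · obtain ⟨i, hi, hi2⟩ := hex x'
      refine ⟨i, (hl i k).mpr ?_, (hr i x').mpr (by rw [hi, hi2])⟩
      rw [hi]; exact huv
    · obtain ⟨i, hi, hi2⟩ := hex x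
      refine ⟨i, (hr i x).mpr (by rw [hi, hi2]), (hl i k').mpr ?_⟩
      rw [hi]; exact huv
    · exact huv.elim
  · intro v i j k hij hjk hi hk
    have h1 : (i.divNat).val ≤ (j.divNat).val := Nat.div_le_div_right (by exact_mod_cast hij)
    have h2 : (j.divNat).val ≤ (k.divNat).val := Nat.div_le_div_right (by exact_mod_cast hjk)
    rcases v with u | x
    · rw [hl] at hi hk ⊢
      omega
    · rw [hr] at hi hk ⊢
      have h3 : i = k := by
        have h4 : (i.divNat, i.modNat) = (k.divNat, k.modNat) := by
          have h5 := hi.symm.trans hk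
          have h6 := congrArg Prod.fst h5
          have h7 := congrArg Prod.snd h5
          have h8 : i.modNat = k.modNat := e.injective h7
          exact Prod.ext h6 h8
        exact finProdFinEquiv.symm.injective h4
      have h9 : j = i := le_antisymm (h3 ▸ hjk) hij
      rw [h9]; exact hi
  · intro i
    have c1 : (Finset.univ.filter (fun v : Vx m M => ∃ k : Fin m, v = Sum.inl k ∧
        k.val = (i.divNat).val)).card ≤ 1 := by
      rw [Finset.card_le_one]
      intro a ha b hb
      simp only [Finset.mem_filter, Finset.mem_univ, true_and] at ha hb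
      obtain ⟨p, hp, hp2⟩ := ha
      obtain ⟨q, hq, hq2⟩ := hb
      rw [hp, hq]
      congr 1
      exact Fin.ext (hp2.trans hq2.symm)
    have c2 : (Finset.univ.filter (fun v : Vx m M => ∃ k : Fin m, v = Sum.inl k ∧
        k.val = (i.divNat).val + 1)).card ≤ 1 := by
      rw [Finset.card_le_one]
      intro a ha b hb
      simp only [Finset.mem_filter, Finset.mem_univ, true_and] at ha hb
      obtain ⟨p, hp, hp2⟩ := ha
      obtain ⟨q, hq, hq2⟩ := hb
      rw [hp, hq]
      congr 1
      exact Fin.ext (hp2.trans hq2.symm)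
    calc (B i).card ≤ _ + _ := Finset.card_union_le _ _
      _ ≤ 1 + (1 + 1) := by
          refine Nat.add_le_add c1 ((Finset.card_union_le _ _).trans (Nat.add_le_add c2 ?_))
          simp
      _ = 2 + 1 := rfl

/-- a graph with a 4-cycle `a b c d` has path-width at least 2 -/
lemma not_width_one {V : Type} (G : SimpleGraph V) (a b c d : V) (hab : G.Adj a b)
    (hbc : G.Adj b c) (hcd : G.Adj c d) (hda : G.Adj d a) (hac : a ≠ c) (hbd : b ≠ d) :
    ¬ PathWidthLE G 1 := by
  classical
  rintro ⟨m, B, h1, h2, h3, h4⟩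
  -- last bag of a vertex
  have hlast : ∀ v, ∃ i, v ∈ B i ∧ ∀ j, v ∈ B j → j ≤ i := by
    intro v
    have hne : (Finset.univ.filter (fun i => v ∈ B i)).Nonempty := by
      obtain ⟨i, hi⟩ := h1 v
      exact ⟨i, by simpa using hi⟩
    refine ⟨(Finset.univ.filter (fun i => v ∈ B i)).max' hne, ?_, ?_⟩
    · have := Finset.max'_mem _ hne
      simpa using this
    · intro j hj
      exact Finset.le_max' _ _ (by simpa using hj)
  choose r hr1 hr2 using hlast
  -- key: if `y` has the first last bag, among its two neighbours `x, z`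
  have key : ∀ x y z, G.Adj x y → G.Adj y z → x ≠ z → r y ≤ r x → r y ≤ r z → False := by
    intro x y z hxy hyz hxz hx hz
    obtain ⟨i, hi1, hi2⟩ := h2 x y hxy
    obtain ⟨j, hj1, hj2⟩ := h2 y z hyz
    have mx : x ∈ B (r y) := h3 x i (r y) (r x) (hr2 y i hi2) hx hi1 (hr1 x)
    have mz : z ∈ B (r y) := h3 z j (r y) (r z) (hr2 y j hj1) hz hj2 (hr1 z)
    have my : y ∈ B (r y) := hr1 y
    have hsub : ({x, y, z} : Finset V) ⊆ B (r y) := by
      intro w hw
      simp only [Finset.mem_insert, Finset.mem_singleton] at hw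
      rcases hw with rfl | rfl | rfl <;> assumption
    have hc : ({x, y, z} : Finset V).card = 3 :=
      Finset.card_eq_three.mpr ⟨x, y, z, hxy.ne, hxz, hyz.ne, rfl⟩
    have := Finset.card_le_card hsub
    have := h4 (r y)
    omega
  rcases le_total (r a) (r c) with hca | hca
  · rcases le_total (r b) (r d) with hbd' | hbd'
    · rcases le_total (r a) (r b) with h | h
      · exact key d a b hda hab hbd.symm (h.trans hbd') h
      · exact key a b c hab hbc hac h (h.trans hca)
    · rcases le_total (r a) (r d) with h | h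
      · exact key d a b hda hab hbd.symm h (h.trans hbd')
      · exact key c d a hcd hda hac.symm (h.trans hca) h
  · rcases le_total (r b) (r d) with hbd' | hbd'
    · rcases le_total (r c) (r b) with h | h
      · exact key b c d hbc hcd hbd h (h.trans hbd')
      · exact key a b c hab hbc hac (h.trans hca) h
    · rcases le_total (r c) (r d) with h | h
      · exact key b c d hbc hcd hbd (h.trans hbd') h
      · exact key c d a hcd hda hac.symm h (h.trans hca)

/-! ### The counting argument -/

section count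

variable {m c : ℕ}

/-- the index `n` of a vertex `u_n` -/
def fi (hm : 0 < m) (n : ℕ) : Fin m := ⟨n % m, Nat.mod_lt _ hm⟩

lemma fi_val (hm : 0 < m) {n : ℕ} (h : n < m) : (fi hm n).val = n := Nat.mod_eq_of_lt h

/-- the pair `(j, k)` is closed: the colour of `u_k` does not occur on `X_j` -/
def Closed (f : Vx m (m * c + 1) → ℕ) (j k : Fin m) : Prop :=
  ∀ S : Finset (Fin (m * c + 1)), f (Sum.inr (j, S)) ≠ f (Sum.inl k)

/-- In a nonrepetitive colouring every window of length `2s+1` has a closed pair of offset `s`. -/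
lemma window (hm : 0 < m) (f : Vx m (m * c + 1) → ℕ) (hf : Nonrepetitive (fat m (m * c + 1)) f) (s a : ℕ) (has : a + 2 * s < m) :
    ∃ j k : Fin m, Closed f j k ∧ a ≤ j.val ∧ j.val ≤ a + 2 * s ∧
      ((j.val < k.val ∧ k.val = j.val + s + 1) ∨ (k.val ≤ j.val ∧ j.val = k.val + s)) := by
  classical
  by_contra hcon
  push Not at hcon
  -- index of the `u` whose colour `x_{a+i}` should have
  let tgt : ℕ → ℕ := fun n => if n < a + s then n + s + 1 else n - s
  have hS : ∀ n, a ≤ n → n ≤ a + 2 * s → ∃ S : Finset (Fin (m * c + 1)),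
      f (Sum.inr (fi hm n, S)) = f (Sum.inl (fi hm (tgt n))) := by
    intro n h1 h2
    by_contra hno
    push Not at hno
    have hn : n < m := by omega
    have ht : tgt n < m := by
      simp only [tgt]; split_ifs <;> omega
    have h5 := hcon (fi hm n) (fi hm (tgt n)) hno (by rw [fi_val hm hn]; exact h1)
      (by rw [fi_val hm hn]; exact h2)
    rw [fi_val hm hn, fi_val hm ht] at h5
    simp only [tgt] at h5
    split_ifs at h5 with h6
    · exact h5.1 (by omega) rfl
    · exact h5.2 (by omega) (by omega)
  choose! T hT using hS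
  let p : ℕ → Vx m (m * c + 1) := fun i =>
    if i % 2 = 0 then Sum.inl (fi hm (a + i / 2)) else Sum.inr (fi hm (a + i / 2), T (a + i / 2))
  have hpe : ∀ i, i % 2 = 0 → p i = Sum.inl (fi hm (a + i / 2)) := by
    intro i h; simp only [p, if_pos h]
  have hpo : ∀ i, i % 2 = 1 → p i = Sum.inr (fi hm (a + i / 2), T (a + i / 2)) := by
    intro i h; simp only [p]; rw [if_neg (by omega)]
  obtain ⟨i, hi, hne⟩ := hf (2 * s + 1) p (by omega) (by
    intro i j hi hj hij
    rcases Nat.mod_two_eq_zero_or_one i with h | h <;>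
      rcases Nat.mod_two_eq_zero_or_one j with h' | h'
    · rw [hpe i h, hpe j h'] at hij
      have h7 := congrArg Fin.val (Sum.inl.inj hij)
      rw [fi_val hm (by omega), fi_val hm (by omega)] at h7
      omega
    · rw [hpe i h, hpo j h'] at hij; cases hij
    · rw [hpo i h, hpe j h'] at hij; cases hij
    · rw [hpo i h, hpo j h'] at hij
      have h7 := congrArg Fin.val (congrArg Prod.fst (Sum.inr.inj hij))
      simp only at h7
      rw [fi_val hm (by omega), fi_val hm (by omega)] at h7
      omega) (by
    intro i hi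
    rcases Nat.mod_two_eq_zero_or_one i with h | h
    · rw [hpe i h, hpo (i + 1) (by omega)]
      rw [fat_inl_inr]
      left
      simp only
      rw [fi_val hm (by omega), fi_val hm (by omega)]
      omega
    · rw [hpo i h, hpe (i + 1) (by omega)]
      apply SimpleGraph.Adj.symm
      rw [fat_inl_inr]
      right
      simp only
      rw [fi_val hm (by omega), fi_val hm (by omega)]
      omega)
  apply hne
  rcases Nat.mod_two_eq_zero_or_one i with h | h
  · -- `u_{a+i/2}` against `x_{a+i/2+s}`
    rw [hpe i h, hpo (i + (2 * s + 1)) (by omega)]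
    have h8 : a + (i + (2 * s + 1)) / 2 = a + i / 2 + s := by omega
    rw [h8, hT (a + i / 2 + s) (by omega) (by omega)]
    have h9 : tgt (a + i / 2 + s) = a + i / 2 := by
      simp only [tgt]; rw [if_neg (by omega)]; omega
    rw [h9]
  · rw [hpo i h, hpe (i + (2 * s + 1)) (by omega)]
    have h8 : a + (i + (2 * s + 1)) / 2 = a + i / 2 + s + 1 := by omega
    rw [h8, hT (a + i / 2) (by omega) (by omega)]
    have h9 : tgt (a + i / 2) = a + i / 2 + s + 1 := by
      simp only [tgt]; rw [if_pos (by omega)]
    rw [h9]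

end count

/-- the lists: `u_k` gets `{k c, ..., k c + c - 1}`; `(j, S)` gets `S` if `S` is large enough -/
noncomputable def lst (m c : ℕ) : Vx m (m * c + 1) → Finset ℕ
  | Sum.inl k => Finset.Ico (k.val * c) (k.val * c + c)
  | Sum.inr x => if c ≤ x.2.card then x.2.map Fin.valEmbedding else Finset.range c

/-- the main combinatorial statement -/
lemma main {m c : ℕ} (hm : 0 < m) (T : ℕ)
    (hT : m * c ≤ ∑ s ∈ Finset.range T, m / (2 * s + 1)) :
    ¬ Choosable (fat m (m * c + 1)) c := by
  classical
  intro hch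
  obtain ⟨f, hfL, hf⟩ := hch (lst m c) (by
    intro v
    rcases v with k | x
    · simp [lst]
    · simp only [lst]
      split_ifs with h
      · simpa using h
      · simp)
  have hu : ∀ k : Fin m, k.val * c ≤ f (Sum.inl k) ∧ f (Sum.inl k) < k.val * c + c := by
    intro k
    have := hfL (Sum.inl k)
    simpa [lst] using this
  have huM : ∀ k : Fin m, f (Sum.inl k) < m * c + 1 := by
    intro k
    have h1 := (hu k).2
    have h2 : (k.val + 1) * c ≤ m * c := Nat.mul_le_mul_right c k.isLt
    have h3 : (k.val + 1) * c = k.val * c + c := by ring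
    omega
  have hinj : ∀ k l : Fin m, f (Sum.inl k) = f (Sum.inl l) → k = l := by
    intro k l h
    have h1 := hu k
    have h2 := hu l
    rw [h] at h1
    by_contra hne
    rcases lt_or_gt_of_ne (fun h' => hne (Fin.ext h')) with h3 | h3
    · have h4 : (k.val + 1) * c ≤ l.val * c := Nat.mul_le_mul_right c h3
      have h5 : (k.val + 1) * c = k.val * c + c := by ring
      omega
    · have h4 : (l.val + 1) * c ≤ k.val * c := Nat.mul_le_mul_right c h3
      have h5 : (l.val + 1) * c = l.val * c + c := by ring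
      omega
  -- few closed pairs in every row
  have hrow : ∀ j : Fin m, (Finset.univ.filter (fun k => Closed f j k)).card < c := by
    intro j
    by_contra hge
    push Not at hge
    let g : Fin m → Fin (m * c + 1) := fun k => ⟨f (Sum.inl k), huM k⟩
    have hg : Function.Injective g := by
      intro k l h
      exact hinj k l (congrArg Fin.val h)
    let S : Finset (Fin (m * c + 1)) := (Finset.univ.filter (fun k => Closed f j k)).image g
    have hS : c ≤ S.card := by
      rw [Finset.card_image_of_injective _ hg]; exact hge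
    have hx := hfL (Sum.inr (j, S))
    simp only [lst] at hx
    rw [if_pos hS] at hx
    simp only [Finset.mem_map, Fin.valEmbedding_apply] at hx
    obtain ⟨y, hy, hy2⟩ := hx
    obtain ⟨k, hk, hk2⟩ := Finset.mem_image.mp hy
    have hk3 : Closed f j k := by simpa using hk
    apply hk3 S
    rw [← hy2, ← hk2]
  -- the set of all closed pairs
  let P : Finset (Fin m × Fin m) := Finset.univ.filter (fun q => Closed f q.1 q.2)
  have hPcard : P.card < m * c := by
    have h1 : P.card = ∑ j : Fin m, (Finset.univ.filter (fun k => Closed f j k)).card := by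
      have h0 := Finset.card_eq_sum_card_fiberwise (f := fun q : Fin m × Fin m => q.1)
        (s := P) (t := Finset.univ) (fun _ _ => by simp)
      rw [h0]
      apply Finset.sum_congr rfl
      intro j _
      apply Finset.card_bij (fun q _ => q.2)
      · intro q hq
        simp only [P, Finset.mem_filter, Finset.mem_univ, true_and] at hq ⊢
        rw [← hq.2]; exact hq.1
      · intro q hq q' hq' h
        simp only [P, Finset.mem_filter, Finset.mem_univ, true_and] at hq hq'
        exact Prod.ext (hq.2.trans hq'.2.symm) h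
      · intro k hk
        simp only [Finset.mem_filter, Finset.mem_univ, true_and] at hk
        exact ⟨(j, k), by simp [P, hk], rfl⟩
    rw [h1]
    have hne : (Finset.univ : Finset (Fin m)).Nonempty := ⟨⟨0, hm⟩, Finset.mem_univ _⟩
    calc ∑ j : Fin m, (Finset.univ.filter (fun k => Closed f j k)).card
        < ∑ _j : Fin m, c := Finset.sum_lt_sum_of_nonempty hne (fun j _ => hrow j)
      _ = m * c := by simp
  -- windows
  have hwin : ∀ s w : ℕ, w < m / (2 * s + 1) → ∃ q : Fin m × Fin m, Closed f q.1 q.2 ∧
      w * (2 * s + 1) ≤ q.1.val ∧ q.1.val ≤ w * (2 * s + 1) + 2 * s ∧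
      ((q.1.val < q.2.val ∧ q.2.val = q.1.val + s + 1) ∨
        (q.2.val ≤ q.1.val ∧ q.1.val = q.2.val + s)) := by
    intro s w hw
    have h1 : (w + 1) * (2 * s + 1) ≤ m :=
      (Nat.mul_le_mul_right _ hw).trans (Nat.div_mul_le_self m (2 * s + 1))
    have h2 : (w + 1) * (2 * s + 1) = w * (2 * s + 1) + (2 * s + 1) := by ring
    obtain ⟨j, k, h3, h4, h5, h6⟩ := window hm f hf s (w * (2 * s + 1)) (by omega)
    exact ⟨(j, k), h3, h4, h5, h6⟩
  have hne0 : Nonempty (Fin m × Fin m) := ⟨(⟨0, hm⟩, ⟨0, hm⟩)⟩
  choose! F hF1 hF2 hF3 hF4 using hwin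
  have hcount : ∑ s ∈ Finset.range T, m / (2 * s + 1) ≤ P.card := by
    have h1 : ∑ s ∈ Finset.range T, m / (2 * s + 1) =
        ((Finset.range T).sigma (fun s => Finset.range (m / (2 * s + 1)))).card := by
      rw [Finset.card_sigma]; simp
    rw [h1]
    apply Finset.card_le_card_of_injOn (fun q : (Σ _ : ℕ, ℕ) => F q.1 q.2)
    · rintro ⟨s, w⟩ hq
      simp only [Finset.coe_sigma, Set.mem_sigma_iff, Finset.coe_range, Set.mem_Iio] at hq
      simp only [P, Finset.coe_filter, Finset.mem_univ, true_and, Set.mem_ofPred_eq]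
      exact hF1 s w hq.2
    · rintro ⟨s, w⟩ hq ⟨s', w'⟩ hq' heq
      simp only [Finset.coe_sigma, Set.mem_sigma_iff, Finset.coe_range, Set.mem_Iio] at hq hq'
      simp only at heq
      have a2 := hF2 s w hq.2
      have a3 := hF3 s w hq.2
      have a4 := hF4 s w hq.2
      have b2 := hF2 s' w' hq'.2
      have b3 := hF3 s' w' hq'.2
      have b4 := hF4 s' w' hq'.2
      rw [← heq] at b2 b3 b4
      have hss : s = s' := by omega
      subst hss
      have hww : w = w' := by
        have e1 : (F s w).1.val / (2 * s + 1) = w := by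
          rw [Nat.div_eq_iff (by omega)]
          constructor
          · exact a2
          · omega
        have e2 : (F s w).1.val / (2 * s + 1) = w' := by
          rw [Nat.div_eq_iff (by omega)]
          constructor
          · exact b2
          · omega
        omega
      rw [hww]
  omega

/-- divergence of the sum of the reciprocals of the odd numbers -/
lemma exists_T (c : ℕ) : ∃ T : ℕ, (c : ℝ) ≤ ∑ s ∈ Finset.range T, (1 : ℝ) / (2 * s + 1) := by
  have h := Real.tendsto_sum_range_one_div_nat_succ_atTop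
  obtain ⟨T, hT⟩ := (h.eventually_ge_atTop (2 * (c : ℝ))).exists
  refine ⟨T, ?_⟩
  have h2 : ∑ s ∈ Finset.range T, (1 : ℝ) / (s + 1) ≤
      ∑ s ∈ Finset.range T, 2 * ((1 : ℝ) / (2 * s + 1)) := by
    apply Finset.sum_le_sum
    intro s _
    rw [← mul_div_assoc, mul_one, div_le_div_iff₀ (by positivity) (by positivity)]
    have : (0 : ℝ) ≤ s := Nat.cast_nonneg s
    linarith
  rw [← Finset.mul_sum] at h2
  linarith

/-- **Result.**  For every `c` there is a finite graph of path-width exactly `2` that is not
nonrepetitively `c`-choosable: the Thue choice number is unbounded on graphs of path-width 2. -/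
theorem result : ∀ c : ℕ, ∃ (V : Type) (_ : Fintype V) (G : SimpleGraph V),
    PathWidthTwo G ∧ ¬ Choosable G c := by
  intro c
  obtain ⟨T, hT⟩ := exists_T c
  let m₀ := ∏ s ∈ Finset.range T, (2 * s + 1)
  have hm₀ : 0 < m₀ := Finset.prod_pos (fun s _ => by omega)
  let m := m₀ * 2
  have hm : 0 < m := by positivity
  have hsum : m * c ≤ ∑ s ∈ Finset.range T, m / (2 * s + 1) := by
    have h1 : ((m * c : ℕ) : ℝ) ≤ ((∑ s ∈ Finset.range T, m / (2 * s + 1) : ℕ) : ℝ) := by
      push_cast
      have h2 : ∑ s ∈ Finset.range T, ((m / (2 * s + 1) : ℕ) : ℝ) =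
          (m : ℝ) * ∑ s ∈ Finset.range T, (1 : ℝ) / (2 * s + 1) := by
        rw [Finset.mul_sum]
        apply Finset.sum_congr rfl
        intro s hs
        have hdvd : (2 * s + 1) ∣ m :=
          (Finset.dvd_prod_of_mem (fun s => 2 * s + 1) hs).mul_right 2
        rw [Nat.cast_div hdvd (by positivity)]
        push_cast
        ring
      have h3 : (m : ℝ) * c ≤ (m : ℝ) * ∑ s ∈ Finset.range T, (1 : ℝ) / (2 * s + 1) :=
        mul_le_mul_of_nonneg_left hT (Nat.cast_nonneg m)
      rw [← h2] at h3
      exact h3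
    exact_mod_cast h1
  refine ⟨Vx m (m * c + 1), inferInstance, fat m (m * c + 1),
    ⟨fat_width m (m * c + 1), ?_⟩, main hm T hsum⟩
  have hm2 : 2 ≤ m := by simp only [m]; omega
  refine not_width_one _ (Sum.inl (⟨0, by omega⟩ : Fin m)) (Sum.inr (⟨0, by omega⟩, ∅))
    (Sum.inl (⟨1, by omega⟩ : Fin m)) (Sum.inr (⟨0, by omega⟩, {⟨0, by omega⟩}))
    ?_ ?_ ?_ ?_ ?_ ?_
  · exact Or.inl rfl
  · exact Or.inr rfl
  · exact Or.inr rfl
  · exact Or.inl rfl
  · intro h
    have := congrArg Fin.val (Sum.inl.inj h)
    simp at this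
  · intro h
    have := congrArg Prod.snd (Sum.inr.inj h)
    simp at this

end Pool.Agent.Results.MP_924390_co.FatPath
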